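import Pool.Agent.H68.MW.Defs

/-! # MP_1fe246_co, module APP: almost periodic bad words -/

set_option autoImplicit false

namespace Pool.Agent.H68.MW

/-- extend a run to a maximal one, between two given breaks -/
theorem exists_maxRun {B : Type} (V : ℤ → B) (π : ℕ) (hπ : 0 < π) (s t l₀ r₀ : ℤ) (hst : s + π ≤ t)
    (hper : Per V π s t) (hl : l₀ ≤ s) (hl' : V (l₀ - 1) ≠ V (l₀ - 1 + π)) (hr : t ≤ r₀)
    (hr' : V r₀ ≠ V (r₀ - π)) :
    ∃ l r : ℤ, l₀ ≤ l ∧ l ≤ s ∧ t ≤ r ∧ r ≤ r₀ ∧ MaxRun V π l r := by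
  classical
  -- right end
  have hR : ∃ k : ℕ, V (t + k) ≠ V (t + k - π) := by
    refine ⟨(r₀ - t).toNat, ?_⟩
    have : t + ((r₀ - t).toNat : ℤ) = r₀ := by omega
    rw [this]; exact hr'
  have hL : ∃ k : ℕ, V (s - k - 1) ≠ V (s - k - 1 + π) := by
    refine ⟨(s - l₀).toNat, ?_⟩
    have : s - ((s - l₀).toNat : ℤ) = l₀ := by omega
    rw [this]; exact hl'
  set kr := Nat.find hR with hkr
  set kl := Nat.find hL with hkl
  have h1 : V (t + kr) ≠ V (t + kr - π) := Nat.find_spec hR
  have h2 : V (s - kl - 1) ≠ V (s - kl - 1 + π) := Nat.find_spec hL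
  have h1' : ∀ k : ℕ, k < kr → V (t + k) = V (t + k - π) := by
    intro k hk
    have := Nat.find_min hR hk
    simpa using this
  have h2' : ∀ k : ℕ, k < kl → V (s - k - 1) = V (s - k - 1 + π) := by
    intro k hk
    have := Nat.find_min hL hk
    simpa using this
  have h1le : kr ≤ (r₀ - t).toNat := by
    apply Nat.find_min' hR
    have : t + ((r₀ - t).toNat : ℤ) = r₀ := by omega
    rw [this]; exact hr'
  have h2le : kl ≤ (s - l₀).toNat := by
    apply Nat.find_min' hL
    have : s - ((s - l₀).toNat : ℤ) = l₀ := by omega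
    rw [this]; exact hl'
  refine ⟨s - kl, t + kr, by omega, by omega, by omega, by omega, hπ, by omega, ?_, h1, h2⟩
  intro i hi1 hi2
  by_cases ha : i < s
  · have := h2' (s - 1 - i).toNat (by omega)
    have e : s - ((s - 1 - i).toNat : ℤ) - 1 = i := by omega
    rw [e] at this
    exact this
  · by_cases hb : i + π < t
    · exact hper i (by omega) hb
    · have := h1' (i + π - t).toNat (by omega)
      have e : t + ((i + π - t).toNat : ℤ) = i + π := by omega
      rw [e] at this
      rw [this]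
      congr 1
      omega

/-- bad words that are periodic up to `K` letters at both ends come from maximal runs -/
theorem app_bad {B : Type} (V : ℤ → B) (K P n : ℕ) (hn : 4 * (K + P) + 4 ≤ n) (w : List B)
    (hw : w ∈ Bad V n) (ha : App K P w) :
    ∃ π, π ≤ P ∧ ∃ l r : ℤ, MaxRun V π l r ∧ (n : ℤ) ≤ r - l + 2 * K ∧ r - l ≤ n + P + 1 := by
  obtain ⟨hRS, hnot⟩ := hw
  obtain ⟨π, hπ, hπP, hper⟩ := ha
  -- occurrences
  have hlen : w.length = n := by
    obtain ⟨e, e', h1, -, -⟩ := hRS
    rw [h1]; simp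
  have hocc : ∀ x y : ℤ, w = win V x n → w = win V y n → ∀ i : ℤ, 0 ≤ i → i < n →
      V (x + i) = V (y + i) := by
    intro x y hx hy i hi hi'
    have h := (win_eq_iff V V x y n).1 (hx.symm.trans hy) i.toNat (by omega)
    have e : ((i.toNat : ℕ) : ℤ) = i := by omega
    rwa [e] at h
  have hP : ∀ x : ℤ, w = win V x n → Per V π (x + K) (x + n - K) := by
    intro x hx i hi1 hi2
    have h := hper (i - x).toNat (by omega) (by omega)
    have e1 : w[(i - x).toNat]? = some (V i) := by
      rw [List.getElem?_eq_getElem (by omega)]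
      congr 1
      have : w[(i - x).toNat]'(by omega) = (win V x n)[(i - x).toNat]'(by simp; omega) := by
        simp only [← hx]
      rw [this, getElem_win]
      congr 1; omega
    have e2 : w[(i - x).toNat + π]? = some (V (i + π)) := by
      rw [List.getElem?_eq_getElem (by omega)]
      congr 1
      have : w[(i - x).toNat + π]'(by omega) = (win V x n)[(i - x).toNat + π]'(by simp; omega) := by
        simp only [← hx]
      rw [this, getElem_win]
      congr 1; push_cast; omega
    rw [e1, e2] at h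
    exact Option.some.inj h
  -- breaks on the left and the right
  have key : ∀ x : ℤ, w = win V x n → ∀ l₀ r₀ : ℤ, l₀ ≤ x + K → V (l₀ - 1) ≠ V (l₀ - 1 + π) →
      x + n - K ≤ r₀ → V r₀ ≠ V (r₀ - π) → r₀ - l₀ ≤ n + P + 1 →
      ∃ π, π ≤ P ∧ ∃ l r : ℤ, MaxRun V π l r ∧ (n : ℤ) ≤ r - l + 2 * K ∧ r - l ≤ n + P + 1 := by
    intro x hx l₀ r₀ hl hl' hr hr' hb
    obtain ⟨l, r, h1, h2, h3, h4, h5⟩ := exists_maxRun V π hπ (x + K) (x + n - K) l₀ r₀ (by omega)
      (hP x hx) hl hl' hr hr'
    exact ⟨π, hπP, l, r, h5, by omega, by omega⟩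
  have brR : ∀ x y : ℤ, w = win V x n → w = win V y n → V (x + n) ≠ V (y + n) →
      V (x + n) ≠ V (x + n - π) ∨ V (y + n) ≠ V (y + n - π) := by
    intro x y hx hy hne
    by_contra hcon
    push Not at hcon
    obtain ⟨h1, h2⟩ := hcon
    apply hne
    rw [h1, h2]
    have := hocc x y hx hy (n - π) (by omega) (by omega)
    have e1 : x + (n : ℤ) - π = x + (n - π) := by ring
    have e2 : y + (n : ℤ) - π = y + (n - π) := by ring
    rw [e1, e2]
    exact this
  have brL : ∀ x y : ℤ, w = win V x n → w = win V y n → V (x - 1) ≠ V (y - 1) →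
      V (x - 1) ≠ V (x - 1 + π) ∨ V (y - 1) ≠ V (y - 1 + π) := by
    intro x y hx hy hne
    by_contra hcon
    push Not at hcon
    obtain ⟨h1, h2⟩ := hcon
    apply hne
    rw [h1, h2]
    have := hocc x y hx hy (π - 1) (by omega) (by omega)
    have e1 : x - 1 + (π : ℤ) = x + (π - 1) := by ring
    have e2 : y - 1 + (π : ℤ) = y + (π - 1) := by ring
    rw [e1, e2]
    exact this
  -- words a :: w
  have hcons : ∀ (a : B) (e : ℤ), a :: w = win V (e - ((n + 1 : ℕ) : ℤ)) (n + 1) →
      w = win V (e - n) n ∧ V (e - n - 1) = a := by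
    intro a e h
    rw [win_succ] at h
    have h' := List.cons.inj h
    constructor
    · rw [h'.2]; congr 1; push_cast; ring
    · rw [h'.1]; congr 1; push_cast; ring
  have hcons' : ∀ (e : ℤ), w = win V (e - n) n →
      V (e - n - 1) :: w = win V (e - ((n + 1 : ℕ) : ℤ)) (n + 1) := by
    intro e h
    rw [win_succ]
    have e1 : e - ((n + 1 : ℕ) : ℤ) = e - n - 1 := by push_cast; ring
    have e2 : e - n - 1 + 1 = e - n := by ring
    rw [e1, e2, ← h]
  by_cases h0 : ∃ a, a :: w ∈ RS V (n + 1)
  · -- at least two special left extensions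
    obtain ⟨a, ha⟩ := h0
    have : ∃ b, b :: w ∈ RS V (n + 1) ∧ b ≠ a := by
      by_contra hcon
      push Not at hcon
      exact hnot ⟨a, ha, fun b hb => hcon b hb⟩
    obtain ⟨b, hb, hba⟩ := this
    obtain ⟨e₁, e₂, ha1, ha2, ha3⟩ := ha
    obtain ⟨f₁, f₂, hb1, hb2, hb3⟩ := hb
    obtain ⟨wa1, la1⟩ := hcons a e₁ ha1
    obtain ⟨wa2, la2⟩ := hcons a e₂ ha2
    obtain ⟨wb1, lb1⟩ := hcons b f₁ hb1
    obtain ⟨wb2, lb2⟩ := hcons b f₂ hb2
    have main : ∀ (a : B) (e e' : ℤ), w = win V (e - n) n → w = win V (e' - n) n → V e ≠ V e' →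
        V (e - n - 1) ≠ V (e - n - 1 + π) → V (e' - n - 1) ≠ V (e' - n - 1 + π) → 
        ∃ π, π ≤ P ∧ ∃ l r : ℤ, MaxRun V π l r ∧ (n : ℤ) ≤ r - l + 2 * K ∧ r - l ≤ n + P + 1 := by
      intro a e e' h1 h2 h3 h4 h5
      have := brR (e - n) (e' - n) h1 h2 (by
        have e1 : e - (n : ℤ) + n = e := by ring
        have e2 : e' - (n : ℤ) + n = e' := by ring
        rw [e1, e2]; exact h3)
      rcases this with h | h
      · exact key (e - n) h1 (e - n) (e - n + n) (by omega) h4 (by omega) h (by omega)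
      · exact key (e' - n) h2 (e' - n) (e' - n + n) (by omega) h5 (by omega) h (by omega)
    have tr : ∀ e e' : ℤ, w = win V (e - n) n → w = win V (e' - n) n → 
        V (e - n - 1) = V (e' - n - 1) → V (e - n - 1) ≠ V (e - n - 1 + π) → 
        V (e' - n - 1) ≠ V (e' - n - 1 + π) := by
      intro e e' h1 h2 h3 h4
      rw [← h3]
      have := hocc (e - n) (e' - n) h1 h2 (π - 1) (by omega) (by omega)
      have e1 : e - (n : ℤ) + (π - 1) = e - n - 1 + π := by ring
      have e2 : e' - (n : ℤ) + (π - 1) = e' - n - 1 + π := by ring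
      rw [e1, e2] at this
      rw [← this]
      exact h4
    rcases brL (e₁ - n) (f₁ - n) wa1 wb1 (by rw [la1, lb1]; exact hba.symm) with h | h
    · exact main a e₁ e₂ wa1 wa2 ha3 h (tr e₁ e₂ wa1 wa2 (la1.trans la2.symm) h)
    · exact main b f₁ f₂ wb1 wb2 hb3 h (tr f₁ f₂ wb1 wb2 (lb1.trans lb2.symm) h)
  · -- no special left extension
    push Not at h0
    obtain ⟨e, e', h1, h2, h3⟩ := hRS
    have main : ∀ e e' : ℤ, w = win V (e - n) n → w = win V (e' - n) n → V e ≠ V e' →
        V e ≠ V (e - π) →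
        ∃ π, π ≤ P ∧ ∃ l r : ℤ, MaxRun V π l r ∧ (n : ℤ) ≤ r - l + 2 * K ∧ r - l ≤ n + P + 1 := by
      intro e e' h1 h2 h3 h4
      have hl : V (e - n - 1) ≠ V (e' - n - 1) := by
        intro heq
        apply h0 (V (e - n - 1))
        refine ⟨e, e', hcons' e h1, ?_, h3⟩
        rw [heq]
        exact hcons' e' h2
      by_cases hL : V (e - n - 1) = V (e - n - 1 + π)
      swap
      · exact key (e - n) h1 (e - n) e (by omega) hL (by omega) h4 (by omega)
      have hL' : V (e' - n - 1) ≠ V (e' - n - 1 + π) := by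
        rcases brL (e - n) (e' - n) h1 h2 hl with h | h
        · exact absurd hL h
        · exact h
      -- breaks inside the word on the right
      by_cases hin : ∃ j : ℤ, (n : ℤ) - K ≤ j ∧ j < n ∧ V (e - n + j) ≠ V (e - n + j - π)
      · obtain ⟨j, hj1, hj2, hj3⟩ := hin
        refine key (e' - n) h2 (e' - n) (e' - n + j) (by omega) hL' (by omega) ?_ (by omega)
        have a1 := hocc (e - n) (e' - n) h1 h2 j (by omega) (by omega)
        have a2 := hocc (e - n) (e' - n) h1 h2 (j - π) (by omega) (by omega)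
        have b1 : e - (n : ℤ) + (j - π) = e - n + j - π := by ring
        have b2 : e' - (n : ℤ) + (j - π) = e' - n + j - π := by ring
        rw [b1, b2] at a2
        rw [← a1, ← a2]
        exact hj3
      push Not at hin
      by_cases hlft : ∃ l₀ : ℤ, e - n - π ≤ l₀ ∧ l₀ ≤ e - n + K ∧ V (l₀ - 1) ≠ V (l₀ - 1 + π)
      · obtain ⟨l₀, g1, g2, g3⟩ := hlft
        exact key (e - n) h1 l₀ e (by omega) g3 (by omega) h4 (by omega)
      push Not at hlft
      exfalso
      have hfull : ∀ i : ℤ, e - n - π - 1 ≤ i → i < e - π → V i = V (i + π) := by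
        intro i hi1 hi2
        by_cases c1 : i < e - n + K
        · have := hlft (i + 1) (by omega) (by omega)
          have b1 : i + 1 - 1 = i := by ring
          rw [b1] at this
          exact this
        · by_cases c2 : i + π < e - n + n - K
          · exact hP (e - n) h1 i (by omega) c2
          · have := hin (i + π - (e - n)) (by omega) (by omega)
            have b1 : e - (n : ℤ) + (i + π - (e - n)) = i + π := by ring
            have b2 : i + (π : ℤ) - π = i := by ring
            rw [b1, b2] at this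
            exact this.symm
      apply h0 (V (e - n - 1))
      refine ⟨e, e - π, hcons' e h1, ?_, h4⟩
      rw [hcons' e h1, win_eq_iff]
      intro i hi
      have := hfull (e - π - ((n + 1 : ℕ) : ℤ) + i) (by push_cast; omega) (by push_cast; omega)
      rw [this]
      congr 1
      push_cast
      ring
    have := brR (e - n) (e' - n) h1 h2 (by
      have e1 : e - (n : ℤ) + n = e := by ring
      have e2 : e' - (n : ℤ) + n = e' := by ring
      rw [e1, e2]; exact h3)
    have e1 : e - (n : ℤ) + n = e := by ring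
    have e2 : e' - (n : ℤ) + n = e' := by ring
    rw [e1, e2] at this
    rcases this with h | h
    · exact main e e' h1 h2 h3 h
    · exact main e' e h2 h1 h3.symm h

/-- there are boundedly many words of given length that are periodic up to `K` letters -/
theorem app_words {B : Type} [Fintype B] (K P : ℕ) :
    ∃ C₀ : ℕ, ∀ n : ℕ, {w : List B | w.length = n ∧ App K P w}.Finite ∧
      {w : List B | w.length = n ∧ App K P w}.ncard ≤ C₀ := by
  classical
  let T := Fin (P + 1) × (Fin (K + P) → Option B) × (Fin K → Option B)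
  refine ⟨Nat.card T, fun n => ?_⟩
  let per : List B → ℕ := fun w => if h : App K P w then Classical.choose h else 0
  have hper : ∀ w, App K P w → 0 < per w ∧ per w ≤ P ∧
      ∀ i : ℕ, K ≤ i → i + per w + K < w.length → w[i]? = w[i + per w]? := by
    intro w h
    have := Classical.choose_spec h
    simp only [per, dif_pos h]
    exact this
  have hle : ∀ w, per w < P + 1 := by
    intro w
    by_cases h : App K P w
    · exact Nat.lt_succ_of_le (hper w h).2.1
    · simp only [per, dif_neg h]; omega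
  let f : List B → T := fun w => (⟨per w, hle w⟩, fun i => w[(i : ℕ)]?, fun i => w[n - K + (i : ℕ)]?)
  have hinj : Set.InjOn f {w : List B | w.length = n ∧ App K P w} := by
    rintro w ⟨hw1, hw2⟩ w' ⟨hw1', hw2'⟩ hf
    have f1 : per w = per w' := congrArg Fin.val (congrArg Prod.fst hf)
    have f2 : ∀ i : ℕ, i < K + P → w[i]? = w'[i]? := by
      intro i hi
      exact congrFun (congrArg (fun t => t.2.1) hf) ⟨i, hi⟩
    have f3 : ∀ i : ℕ, i < K → w[n - K + i]? = w'[n - K + i]? := by
      intro i hi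
      exact congrFun (congrArg (fun t => t.2.2) hf) ⟨i, hi⟩
    obtain ⟨a1, a2, a3⟩ := hper w hw2
    obtain ⟨b1, b2, b3⟩ := hper w' hw2'
    have hall : ∀ i : ℕ, w[i]? = w'[i]? := by
      intro i
      induction i using Nat.strong_induction_on with
      | _ i ih =>
        by_cases c1 : i < K + P
        · exact f2 i c1
        · by_cases c2 : n ≤ i + K
          · by_cases c3 : i < n
            · have := f3 (i - (n - K)) (by omega)
              have e : n - K + (i - (n - K)) = i := by omega
              rwa [e] at this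
            · rw [List.getElem?_eq_none (by omega), List.getElem?_eq_none (by omega)]
          · have h1 := a3 (i - per w) (by omega) (by omega)
            have h2 := b3 (i - per w') (by omega) (by omega)
            have e1 : i - per w + per w = i := by omega
            have e2 : i - per w' + per w' = i := by omega
            rw [e1] at h1
            rw [e2] at h2
            rw [← h1, ← h2, ← f1]
            exact ih (i - per w) (by omega)
    exact List.ext_getElem? hall
  have hfin : {w : List B | w.length = n ∧ App K P w}.Finite :=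
    Set.Finite.of_injOn (Set.mapsTo_univ f _) hinj Set.finite_univ
  refine ⟨hfin, ?_⟩
  rw [← hinj.ncard_image, ← Set.ncard_univ]
  exact Set.ncard_le_ncard (Set.subset_univ _) Set.finite_univ

theorem app_count {B : Type} [Fintype B] (V : ℤ → B) (K P C₁ : ℕ)
    (h : ∀ m : ℕ, {L : ℕ | m ≤ L ∧ L < 2 * m ∧ ∃ π ≤ P, ∃ l : ℤ, MaxRun V π l (l + L)}.ncard ≤ C₁) :
    ∃ C, ∀ m, ∑ j ∈ Finset.Ico m (2 * m), {w | w ∈ Bad V j ∧ App K P w}.ncard ≤ C := by
  classical
  obtain ⟨C₀, hC₀⟩ := app_words (B := B) K P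
  set M₀ := 4 * (K + P) + 4 with hM₀
  let a : ℕ → ℕ := fun j => {w | w ∈ Bad V j ∧ App K P w}.ncard
  have ha : ∀ j, a j ≤ C₀ := by
    intro j
    refine le_trans ?_ (hC₀ j).2
    apply Set.ncard_le_ncard _ (hC₀ j).1
    rintro w ⟨⟨⟨e, e', h1, -, -⟩, -⟩, h2⟩
    refine ⟨?_, h2⟩
    rw [h1]; simp
  refine ⟨(∑ j ∈ Finset.range (2 * M₀), a j) + 2 * C₁ * (2 * K + P + 2) * C₀, fun m => ?_⟩
  change ∑ j ∈ Finset.Ico m (2 * m), a j ≤ _
  by_cases hm : m < M₀
  · refine le_trans (Finset.sum_le_sum_of_subset (t := Finset.range (2 * M₀)) ?_) (Nat.le_add_right _ _)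
    intro j hj
    rw [Finset.mem_Ico] at hj
    rw [Finset.mem_range]
    omega
  push Not at hm
  -- the run lengths
  let R : Set ℕ := {L : ℕ | ∃ π ≤ P, ∃ l : ℤ, MaxRun V π l (l + L)}
  let F : Finset ℕ := (Finset.Ico (m - 2 * K) (4 * (m - 2 * K))).filter (fun L => L ∈ R)
  have hF : F.card ≤ 2 * C₁ := by
    have hsub : F ⊆ ((Finset.Ico (m - 2 * K) (2 * (m - 2 * K))).filter (fun L => L ∈ R)) ∪
        ((Finset.Ico (2 * (m - 2 * K)) (2 * (2 * (m - 2 * K)))).filter (fun L => L ∈ R)) := by
      intro L hL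
      simp only [F, Finset.mem_filter, Finset.mem_Ico, Finset.mem_union] at hL ⊢
      by_cases hc : L < 2 * (m - 2 * K)
      · left; exact ⟨⟨hL.1.1, hc⟩, hL.2⟩
      · right; exact ⟨⟨by omega, by omega⟩, hL.2⟩
    have hone : ∀ k : ℕ, ((Finset.Ico k (2 * k)).filter (fun L => L ∈ R)).card ≤ C₁ := by
      intro k
      refine le_trans (le_of_eq ?_) (h k)
      rw [← Set.ncard_coe_finset]
      congr 1
      ext L
      simp only [Finset.coe_filter, Finset.mem_Ico, Set.mem_ofPred_eq, R]
      tauto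
    calc F.card ≤ _ := Finset.card_le_card hsub
      _ ≤ _ := Finset.card_union_le _ _
      _ ≤ C₁ + C₁ := Nat.add_le_add (hone _) (hone _)
      _ = 2 * C₁ := by ring
  let G : Finset ℕ := F.biUnion (fun L => Finset.Icc (L - P - 1) (L + 2 * K))
  have hG : G.card ≤ 2 * C₁ * (2 * K + P + 2) := by
    calc G.card ≤ ∑ L ∈ F, (Finset.Icc (L - P - 1) (L + 2 * K)).card := Finset.card_biUnion_le
      _ ≤ ∑ _L ∈ F, (2 * K + P + 2) := by
          apply Finset.sum_le_sum
          intro L _
          rw [Nat.card_Icc]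
          omega
      _ = F.card * (2 * K + P + 2) := by rw [Finset.sum_const, smul_eq_mul]
      _ ≤ 2 * C₁ * (2 * K + P + 2) := Nat.mul_le_mul_right _ hF
  have hzero : ∀ j ∈ Finset.Ico m (2 * m), j ∉ G → a j = 0 := by
    intro j hj hjG
    rw [Finset.mem_Ico] at hj
    by_contra hne
    obtain ⟨w, hw1, hw2⟩ := Set.nonempty_of_ncard_ne_zero hne
    obtain ⟨π, hπP, l, r, hrun, h1, h2⟩ := app_bad V K P j (by omega) w hw1 hw2
    apply hjG
    have hlr : l ≤ r := by have := hrun.2.1; omega
    simp only [G, Finset.mem_biUnion, Finset.mem_Icc]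
    refine ⟨(r - l).toNat, ?_, by omega, by omega⟩
    simp only [F, Finset.mem_filter, Finset.mem_Ico]
    refine ⟨⟨by omega, by omega⟩, π, hπP, l, ?_⟩
    have e : l + ((r - l).toNat : ℤ) = r := by omega
    rw [e]
    exact hrun
  calc ∑ j ∈ Finset.Ico m (2 * m), a j ≤ ∑ j ∈ (Finset.Ico m (2 * m)).filter (fun j => j ∈ G), a j := by
        rw [Finset.sum_filter]
        apply Finset.sum_le_sum
        intro j hj
        by_cases hjG : j ∈ G
        · rw [if_pos hjG]
        · rw [hzero j hj hjG]; exact Nat.zero_le _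
    _ ≤ ∑ j ∈ G, a j := by
        apply Finset.sum_le_sum_of_subset
        intro j hj
        exact (Finset.mem_filter.1 hj).2
    _ ≤ ∑ _j ∈ G, C₀ := Finset.sum_le_sum (fun j _ => ha j)
    _ = G.card * C₀ := by rw [Finset.sum_const, smul_eq_mul]
    _ ≤ 2 * C₁ * (2 * K + P + 2) * C₀ := Nat.mul_le_mul_right _ hG
    _ ≤ _ := Nat.le_add_left _ _

end Pool.Agent.H68.MW
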